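import Pool.Agent.H295R2.MK.Defs

set_option autoImplicit false

namespace H399R2.MKS2

open Finset Filter Topology MeasureTheory Complex
open Pool.Agent.H306R2 H295MK

/-- continuous majorant -/
noncomputable def ps (d : ℝ) (u : Fin 4 → ℝ) : ℝ :=
  sc (1 / 2) d (u 0 + u 2) * sc (1 / 2) d (u 1 + u 2) * sc (1 / 2) d (u 0 + u 3) *
    sc (1 / 2) d (u 1 + u 3)

theorem ps_cont (d : ℝ) : Continuous (ps d) := by
  unfold ps
  refine ((Continuous.mul ?_ ?_).mul ?_).mul ?_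
  all_goals
    apply (sc_cont _ _).comp
    fun_prop

theorem ps_nonneg (d : ℝ) (u : Fin 4 → ℝ) : 0 ≤ ps d u :=
  mul_nonneg (mul_nonneg (mul_nonneg (sc_nonneg _ _ _) (sc_nonneg _ _ _)) (sc_nonneg _ _ _))
    (sc_nonneg _ _ _)

theorem ps_le_one (d : ℝ) (u : Fin 4 → ℝ) : ps d u ≤ 1 := by
  unfold ps
  refine mul_le_one₀ (mul_le_one₀ (mul_le_one₀ (sc_le_one _ _ _) (sc_nonneg _ _ _)
    (sc_le_one _ _ _)) (sc_nonneg _ _ _) (sc_le_one _ _ _)) (sc_nonneg _ _ _) (sc_le_one _ _ _)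

theorem ps_le {d : ℝ} (hd : 0 < d) (u : Fin 4 → ℝ) : ps d u ≤ chN (1 / 2 + d) u := by
  unfold chN
  split_ifs with h
  · exact ps_le_one d u
  · have hz : ∀ x : ℝ, ¬ x ≤ 1 / 2 + d → sc (1 / 2) d x = 0 := fun x hx =>
      sc_eq_zero hd (not_le.1 hx).le
    unfold ps
    by_cases h1 : u 0 + u 2 ≤ 1 / 2 + d
    · by_cases h2 : u 1 + u 2 ≤ 1 / 2 + d
      · by_cases h3 : u 0 + u 3 ≤ 1 / 2 + d
        · by_cases h4 : u 1 + u 3 ≤ 1 / 2 + d
          · exact absurd ⟨h1, h2, h3, h4⟩ h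
          · rw [hz _ h4]; simp
        · rw [hz _ h3]; simp
      · rw [hz _ h2]; simp
    · rw [hz _ h1]; simp

theorem le_ps {d : ℝ} (hd : 0 < d) (u : Fin 4 → ℝ) : chN (1 / 2) u ≤ ps d u := by
  unfold chN
  split_ifs with h
  · unfold ps
    rw [sc_eq_one hd h.1, sc_eq_one hd h.2.1, sc_eq_one hd h.2.2.1, sc_eq_one hd h.2.2.2]
    simp
  · exact ps_nonneg d u

theorem ps_zero {d : ℝ} (hd : 0 < d) (hd2 : d ≤ 1 / 2) (u : Fin 4 → ℝ) (h0 : ∀ i, 0 ≤ u i)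
    (h : ∃ i, 1 ≤ u i) : ps d u = 0 := by
  have hz : ∀ x : ℝ, 1 ≤ x → sc (1 / 2) d x = 0 := fun x hx => sc_eq_zero hd (by linarith)
  have a0 := h0 0
  have a1 := h0 1
  have a2 := h0 2
  have a3 := h0 3
  obtain ⟨i, hi⟩ := h
  unfold ps
  fin_cases i
  · rw [hz (u 0 + u 2) (by simp only [Fin.zero_eta] at hi; linarith)]; simp
  · rw [hz (u 1 + u 2) (by simp only [Fin.mk_one] at hi; linarith)]; simp
  · rw [hz (u 0 + u 2) (by simp only [Fin.reduceFinMk] at hi; linarith)]; simp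
  · rw [hz (u 0 + u 3) (by simp only [Fin.reduceFinMk] at hi; linarith)]; simp

theorem W4_nonneg (j : ℕ) (b : Fin 4 → ℕ) : 0 ≤ W4 j b := by
  have hdv : ∀ n, 0 ≤ dv j n := fun n => dv_nonneg (Nat.cast_nonneg j) n
  unfold W4
  split_ifs
  · apply div_nonneg
    · exact mul_nonneg (mul_nonneg (mul_nonneg (hdv _) (hdv _)) (hdv _)) (hdv _)
    · positivity
  · exact le_rfl

theorem N4up_proof (h1 : Kar4) (h2 : N4sum) (h3 : VolN) : N4up := by
  intro j c hj hc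
  -- choice of d
  obtain ⟨d, hd, hd2, hdc⟩ : ∃ d : ℝ, 0 < d ∧ d ≤ 1 / 2 ∧
      aF (2 * j) * ((1 / 2 + d) ^ (4 * j ^ 2) * volN (j ^ 2)) < c := by
    have hcont : Continuous fun d : ℝ => aF (2 * j) * ((1 / 2 + d) ^ (4 * j ^ 2) * volN (j ^ 2)) := by
      fun_prop
    have ht : Tendsto (fun d : ℝ => aF (2 * j) * ((1 / 2 + d) ^ (4 * j ^ 2) * volN (j ^ 2)))
        (𝓝[>] 0) (𝓝 (aF (2 * j) * ((1 / 2) ^ (4 * j ^ 2) * volN (j ^ 2)))) := by
      have := (hcont.tendsto 0).mono_left (nhdsWithin_le_nhds (s := Set.Ioi 0))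
      rwa [add_zero] at this
    have e1 := ht.eventually (gt_mem_nhds hc)
    have e2 : ∀ᶠ d : ℝ in 𝓝[>] 0, d ∈ Set.Ioc (0 : ℝ) (1 / 2) :=
      Ioc_mem_nhdsGT (by norm_num)
    obtain ⟨d, hd1, hd2⟩ := (e1.and e2).exists
    exact ⟨d, hd2.1, hd2.2, hd1⟩
  have hK := h1 j (ps d) 1 hj (ps_cont d) zero_le_one (fun u h0 h => ps_zero hd hd2 u h0 h)
  have hvol := h3 j (1 / 2 + d) hj (by linarith)
  have hm : ∀ i, 0 < m4 j i := by
    intro i
    unfold m4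
    have : (0 : ℝ) < j := by exact_mod_cast hj
    positivity
  have hGd : ∀ u, 0 ≤ Gd (m4 j) u := fun u => Finset.prod_nonneg fun i _ => gd_nonneg (hm i) _
  have hint : ∫ u : Fin 4 → ℝ, Gd (m4 j) u * ps d u ≤
      (1 / 2 + d) ^ (4 * j ^ 2) * volN (j ^ 2) := by
    rw [← hvol.2]
    apply integral_mono_of_nonneg
    · exact Eventually.of_forall fun u => mul_nonneg (hGd u) (ps_nonneg d u)
    · exact hvol.1
    · exact Eventually.of_forall fun u => mul_le_mul_of_nonneg_left (ps_le hd u) (hGd u)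
  have hj0 : (0 : ℝ) < j := by exact_mod_cast hj
  have haF : 0 < aF (2 * j) := aF_pos (by positivity)
  have hlim : aF (2 * j) * ∫ u : Fin 4 → ℝ, Gd (m4 j) u * ps d u < c :=
    lt_of_le_of_lt (mul_le_mul_of_nonneg_left hint haF.le) hdc
  filter_upwards [hK.eventually (gt_mem_nhds hlim), eventually_gt_atTop 0] with L hL hL0
  have hpow : L ^ (4 * (j : ℝ) ^ 2) = L ^ (4 * j ^ 2) := by
    have e : (4 * (j : ℝ) ^ 2) = ((4 * j ^ 2 : ℕ) : ℝ) := by push_cast; ring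
    rw [e, Real.rpow_natCast]
  rw [hpow, div_lt_iff₀ (by positivity)] at hL
  obtain ⟨s1, e1⟩ := h2 j L (1 / 2) hj hL0 (by norm_num)
  obtain ⟨s2, e2⟩ := h2 j L (1 / 2 + d) hj hL0 (by linarith)
  rw [e1]
  refine le_trans ?_ hL.le
  have s3 : Summable (fun b : Fin 4 → ℕ => W4 j b * ps d (pos L b)) := by
    refine Summable.of_nonneg_of_le (fun b => mul_nonneg (W4_nonneg j b) (ps_nonneg d _))
      (fun b => ?_) s2
    exact mul_le_mul_of_nonneg_left (ps_le hd _) (W4_nonneg j b)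
  exact s1.tsum_le_tsum (fun b => mul_le_mul_of_nonneg_left (le_ps hd _) (W4_nonneg j b)) s3

end H399R2.MKS2
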