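import Mathlib
import Pool.Agent.H410R2.Iface2

/-! Bounded gaps between primes from the Maynard-Tao statement `MaynardTao 2000`. -/

namespace Pool.Agent.H399R2

open Finset
open Pool.Agent.H410R2

theorem gap_of_maynardTao (h : MaynardTao 2000) :
    ∃ m : ℕ, 1 ≤ m ∧ {p : ℕ | p.Prime ∧ (p + m).Prime}.Infinite := by
  classical
  obtain ⟨M, hf, hMd⟩ : ∃ M : ℕ, 1 ≤ M ∧ ∀ p : ℕ, p.Prime → p ≤ 3000 → p ∣ M :=
    ⟨Nat.factorial 3000, Nat.factorial_pos _, fun p hp hle => (hp.dvd_factorial).2 hle⟩
  set a : Fin 2000 → ℕ := fun _ => 1 with ha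
  set b : Fin 2000 → ℕ := fun i => M * (i.val + 1) with hb
  have hb1 : ∀ i, 1 ≤ b i := fun i => Nat.mul_pos hf (Nat.succ_pos _)
  have hbinj : ∀ i j, b i = b j → i = j := by
    intro i j hij
    have := Nat.eq_of_mul_eq_mul_left hf hij
    exact Fin.ext (by omega)
  obtain ⟨δ, hδ0, hδ1, x₀, hx⟩ := h a b (fun _ => le_rfl) hb1
    (by
      intro i j hij hab
      simp only [ha, one_mul] at hab
      exact hij (hbinj j i hab).symm)
    (by
      intro p hp
      rcases Nat.lt_or_ge 3000 p with hlt | hle
      · -- pigeonhole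
        have : Fact p.Prime := ⟨hp⟩
        by_contra hcon
        push Not at hcon
        -- every residue is covered
        have hcov : (Finset.univ : Finset (ZMod p)) ⊆
            insert 0 (Finset.univ.image (fun i : Fin 2000 => -((b i : ℕ) : ZMod p))) := by
          intro x _
          rw [Finset.mem_insert, Finset.mem_image]
          by_cases hx0 : x = 0
          · exact Or.inl hx0
          · right
            have hnd : ¬ p ∣ x.val := by
              intro hd
              apply hx0
              have := (ZMod.natCast_eq_zero_iff x.val p).2 hd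
              rwa [ZMod.natCast_zmod_val] at this
            obtain ⟨i, hi⟩ := hcon x.val hnd
            refine ⟨i, Finset.mem_univ _, ?_⟩
            have h2 := (ZMod.natCast_eq_zero_iff _ p).2 hi
            simp only [ha, one_mul, Nat.cast_add, ZMod.natCast_zmod_val] at h2
            exact (eq_neg_of_add_eq_zero_left h2).symm
        have h1 := Finset.card_le_card hcov
        rw [Finset.card_univ, ZMod.card] at h1
        have h2 := (Finset.card_insert_le (0 : ZMod p)
          (Finset.univ.image (fun i : Fin 2000 => -((b i : ℕ) : ZMod p))))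
        have h3 := Finset.card_image_le (s := (Finset.univ : Finset (Fin 2000)))
          (f := fun i : Fin 2000 => -((b i : ℕ) : ZMod p))
        rw [Finset.card_univ, Fintype.card_fin] at h3
        omega
      · refine ⟨1, fun h1 => hp.one_lt.ne' (Nat.dvd_one.1 h1), fun i hi => ?_⟩
        have h2 : p ∣ b i := Dvd.dvd.mul_right (hMd p hp hle) _
        simp only [ha, one_mul] at hi
        exact hp.one_lt.ne' (Nat.dvd_one.1 ((Nat.dvd_add_left h2).1 hi)))
  -- the set of good n is infinite
  set S : Set ℕ := {n | ∃ i j : Fin 2000, i ≠ j ∧ (a i * n + b i).Prime ∧ (a j * n + b j).Prime}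
    with hS
  have hSinf : S.Infinite := by
    intro hfin
    have hbound : ∀ x : ℝ, x₀ ≤ x → x ^ (1 - δ / 2) ≤ (hfin.toFinset.card : ℝ) := by
      intro x hx1
      refine (hx x hx1).trans ?_
      norm_cast
      apply Finset.card_le_card
      intro n hn
      rw [Finset.mem_filter] at hn
      rw [Set.Finite.mem_toFinset]
      exact hn.2.2
    have htend := (tendsto_rpow_atTop (show 0 < 1 - δ / 2 by linarith)).eventually_gt_atTop
      (hfin.toFinset.card : ℝ)
    obtain ⟨x, hx1, hx2⟩ := (htend.and (Filter.eventually_ge_atTop x₀)).exists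
    exact absurd (hbound x hx2) (not_le.2 hx1)
  -- pigeonhole over the pairs
  have hcover : S ⊆ ⋃ ij : Fin 2000 × Fin 2000,
      {n | b ij.1 < b ij.2 ∧ (n + b ij.1).Prime ∧ (n + b ij.2).Prime} := by
    rintro n ⟨i, j, hij, h1, h2⟩
    simp only [ha, one_mul] at h1 h2
    rw [Set.mem_iUnion]
    rcases lt_trichotomy (b i) (b j) with hlt | heq | hgt
    · exact ⟨(i, j), hlt, h1, h2⟩
    · exact absurd (hbinj i j heq) hij
    · exact ⟨(j, i), hgt, h2, h1⟩
  have hex : ∃ ij : Fin 2000 × Fin 2000,
      {n | b ij.1 < b ij.2 ∧ (n + b ij.1).Prime ∧ (n + b ij.2).Prime}.Infinite := by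
    by_contra hcon
    push Not at hcon
    exact hSinf ((Set.finite_iUnion (fun ij => hcon ij)).subset hcover)
  obtain ⟨⟨i, j⟩, hinf⟩ := hex
  obtain ⟨n₀, hn₀⟩ := hinf.nonempty
  have hlt : b i < b j := hn₀.1
  refine ⟨b j - b i, by omega, ?_⟩
  have himg : (fun n => n + b i) '' {n | b i < b j ∧ (n + b i).Prime ∧ (n + b j).Prime} ⊆
      {p : ℕ | p.Prime ∧ (p + (b j - b i)).Prime} := by
    rintro _ ⟨n, ⟨-, h1, h2⟩, rfl⟩
    refine ⟨h1, ?_⟩
    have : n + b i + (b j - b i) = n + b j := by omega
    simp only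
    rw [this]
    exact h2
  exact (hinf.image (fun x _ y _ hxy => by simpa using hxy)).mono himg

end Pool.Agent.H399R2
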