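import Mathlib

/-!
# MP_3babe7_nt: disproof of Q1 from bounded gaps between primes

If `p` and `p + m` are both prime for infinitely many `p` then, with `β = 2`,
`b = (c, c - m, c, c - m, …)` for a suitable `c` and `a(1) = 1`, hypothesis (H) holds, `a` vanishes at
every even index, and `m (n+1) + b 1` is composite for infinitely many even `n`.
(Trick found independently by helper398, helper732 and helper394.)
-/

set_option autoImplicit false

namespace Pool.Agent.H399R2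

/-- the counterexample sequence -/
def bseq (m c : ℕ) (n : ℕ) : ℤ := if n % 2 = 1 then (c : ℤ) else (c : ℤ) - m

/-- the recursion -/
def aseq (m c : ℕ) : ℕ → ℤ
  | 0 => 0
  | 1 => 1
  | (n + 2) => |aseq m c (n + 1) - ((Int.gcd (aseq m c (n + 1)) ((m : ℤ) * ((n + 2 : ℕ) : ℤ) + bseq m c (n + 2)) : ℕ) : ℤ)|

lemma aseq_rec (m c : ℕ) (n : ℕ) (hn : 2 ≤ n) :
    aseq m c n = |aseq m c (n - 1) - ((Int.gcd (aseq m c (n - 1)) ((m : ℤ) * n + bseq m c n) : ℕ) : ℤ)| := by
  obtain ⟨k, rfl⟩ := Nat.exists_eq_add_of_le hn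
  rw [show 2 + k = k + 2 by ring]
  rfl

lemma aseq_even (m c : ℕ) : ∀ k : ℕ, aseq m c (2 * (k + 1)) = 0 := by
  intro k
  induction k with
  | zero =>
    rw [aseq_rec m c _ (by norm_num)]
    simp [aseq]
  | succ k ih =>
    have h1 : aseq m c (2 * (k + 1) + 1) = (m : ℤ) * (2 * (k + 1) + 1) + c := by
      rw [aseq_rec m c _ (by omega), Nat.add_sub_cancel, ih]
      have hb : bseq m c (2 * (k + 1) + 1) = c := by
        unfold bseq; rw [if_pos (by omega)]
      rw [hb, Int.gcd_zero_left, zero_sub, abs_neg, Nat.abs_cast, Int.natCast_natAbs]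
      push_cast
      rw [abs_of_nonneg (by positivity)]
    have h2 : 2 * (k + 1 + 1) = 2 * (k + 1) + 2 := by ring
    rw [h2, aseq_rec m c _ (by omega)]
    have h3 : 2 * (k + 1) + 2 - 1 = 2 * (k + 1) + 1 := by omega
    rw [h3, h1]
    have hb : bseq m c (2 * (k + 1) + 2) = (c : ℤ) - m := by
      unfold bseq; rw [if_neg (by omega)]
    rw [hb]
    have h4 : (m : ℤ) * ((2 * (k + 1) + 2 : ℕ) : ℤ) + ((c : ℤ) - m)
        = (m : ℤ) * (2 * (k + 1) + 1) + c := by push_cast; ring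
    rw [h4, Int.gcd_self, Int.natCast_natAbs,
      abs_of_nonneg (by positivity : (0 : ℤ) ≤ (m : ℤ) * (2 * (k + 1) + 1) + c), sub_self, abs_zero]

/-- Q1 of MP_3babe7_nt is false if some `m ≥ 1` is the difference of infinitely many pairs of
primes. -/
theorem not_Q1_of_gap (hgap : ∃ m : ℕ, 1 ≤ m ∧ {p : ℕ | p.Prime ∧ (p + m).Prime}.Infinite) :
    ∃ m β : ℕ, 1 ≤ m ∧ 1 ≤ β ∧ ∃ b : ℕ → ℤ, (∀ n : ℕ, 1 ≤ n → b (n + β) = b n) ∧
      {n : ℕ | 1 ≤ n ∧ ∀ i : ℕ, 1 ≤ i → i ≤ β →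
        ∃ p : ℕ, p.Prime ∧ (m : ℤ) * n + b i = p}.Infinite ∧
      ∃ a : ℕ → ℤ, 0 < a 1 ∧
        (∀ n : ℕ, 2 ≤ n →
          a n = |a (n - 1) - ((Int.gcd (a (n - 1)) ((m : ℤ) * n + b n) : ℕ) : ℤ)|) ∧
        {n : ℕ | 1 ≤ n ∧ a n = 0 ∧ ∃ i : ℕ, 1 ≤ i ∧ i ≤ β ∧
          ¬ ∃ p : ℕ, p.Prime ∧ (m : ℤ) * (n + 1) + b i = p}.Infinite := by
  obtain ⟨m, hm, hinf⟩ := hgap
  -- pigeonhole on residues modulo m
  obtain ⟨c, hc, hinfc⟩ : ∃ c : ℕ, c < m ∧
      {p : ℕ | (p.Prime ∧ (p + m).Prime) ∧ p % m = c}.Infinite := by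
    by_contra hcon
    push Not at hcon
    apply hinf
    have : {p : ℕ | p.Prime ∧ (p + m).Prime} ⊆
        ⋃ c ∈ Finset.range m, {p : ℕ | (p.Prime ∧ (p + m).Prime) ∧ p % m = c} := by
      intro p hp
      simp only [Set.mem_iUnion, Finset.mem_range]
      exact ⟨p % m, Nat.mod_lt _ hm, hp, rfl⟩
    refine Set.Finite.subset ?_ this
    apply Set.Finite.biUnion (Finset.finite_toSet _)
    intro c hc
    have := hcon c (by simpa using hc)
    exact this
  refine ⟨m, 2, hm, by norm_num, bseq m c, ?_, ?_, aseq m c, by simp [aseq],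
    fun n hn => aseq_rec m c n hn, ?_⟩
  · intro n _
    simp [bseq]
  · -- (H)
    have hmap : Set.InjOn (fun p : ℕ => p / m + 1)
        {p : ℕ | (p.Prime ∧ (p + m).Prime) ∧ p % m = c} := by
      intro p hp q hq hpq
      simp only [Set.mem_ofPred_eq] at hp hq
      simp only [Nat.add_right_cancel_iff] at hpq
      have h1 := Nat.div_add_mod p m
      have h2 := Nat.div_add_mod q m
      rw [← h1, ← h2, hpq, hp.2, hq.2]
    refine (Set.Infinite.image hmap hinfc).mono ?_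
    rintro n ⟨p, ⟨⟨hp1, hp2⟩, hp3⟩, rfl⟩
    refine ⟨by simp, ?_⟩
    have h1 := Nat.div_add_mod p m
    rw [hp3] at h1
    have h1' : (m : ℤ) * ((p / m : ℕ) : ℤ) + c = p := by exact_mod_cast h1
    intro i hi1 hi2
    have : i = 1 ∨ i = 2 := by omega
    rcases this with rfl | rfl
    · refine ⟨p + m, hp2, ?_⟩
      simp only [bseq]
      rw [Nat.cast_add, Nat.cast_add, mul_add]
      norm_num
      linarith
    · refine ⟨p, hp1, ?_⟩
      simp only [bseq]
      rw [Nat.cast_add, mul_add]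
      norm_num
      linarith
  · -- bad zeros
    apply Set.infinite_of_not_bddAbove
    rintro ⟨B, hB⟩
    -- v = m (2 (B+1) + 1) + c
    set v : ℕ := m * (2 * (B + 1) + 1) + c with hv
    have hv2 : 2 ≤ v := by
      have : 1 * 3 ≤ m * (2 * (B + 1) + 1) := Nat.mul_le_mul hm (by omega)
      omega
    have hmem : 2 * ((B + v) + 1) ∈ {n : ℕ | 1 ≤ n ∧ aseq m c n = 0 ∧ ∃ i : ℕ, 1 ≤ i ∧ i ≤ 2 ∧
          ¬ ∃ p : ℕ, p.Prime ∧ (m : ℤ) * (n + 1) + bseq m c i = p} := by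
      refine ⟨by omega, aseq_even m c _, 1, le_rfl, by norm_num, ?_⟩
      rintro ⟨p, hp, hpe⟩
      have hb : bseq m c 1 = c := by simp [bseq]
      rw [hb] at hpe
      have h1 : p = v * (1 + 2 * m) := by
        have : (p : ℤ) = ((v * (1 + 2 * m) : ℕ) : ℤ) := by
          rw [← hpe, hv]; push_cast; ring
        exact_mod_cast this
      rw [h1] at hp
      rcases Nat.prime_mul_iff.mp hp with ⟨_, h⟩ | ⟨_, h⟩ <;> omega
    have := hB hmem
    omega

end Pool.Agent.H399R2
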