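import Mathlib
import Pool.Agent.H922R2.OPC.Stubs

/-! Elements without pole are polynomials in `f`. -/

set_option autoImplicit false

open MvPolynomial

namespace Pool.Agent.H399R2.OPC

open Pool.Agent.H922R2.OPC

theorem aeval_lam (k : Type) [Field k] (c : Polynomial k) :
    Polynomial.aeval (lam : L k) c = HahnSeries.single 0 c := by
  have h : ((Polynomial.aeval (lam : L k)).toRingHom : Polynomial k →+* L k) =
      (HahnSeries.C : Polynomial k →+* L k) := by
    apply Polynomial.ringHom_ext
    · intro a
      show Polynomial.aeval (lam : L k) (Polynomial.C a) = _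
      rw [Polynomial.aeval_C]
      rw [HahnSeries.algebraMap_apply', PowerSeries.algebraMap_apply,
        HahnSeries.ofPowerSeries_C]
      rfl
    · show Polynomial.aeval (lam : L k) Polynomial.X = _
      rw [Polynomial.aeval_X]
      rfl
  exact congrArg (fun g : Polynomial k →+* L k => g c) h

theorem nng (k : Type) [Field k] [IsAlgClosed k] [CharZero k] : S_NNG k := by
  intro hE n f φ ζ hOP h1 h h0
  have key : ev n φ (Polynomial.aeval f ((ev n φ h).coeff 0)) =
      HahnSeries.single 0 ((ev n φ h).coeff 0) := by
    rw [← Polynomial.aeval_algHom_apply, hE n f φ ζ hOP, aeval_lam]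
  have h2 : h - Polynomial.aeval f ((ev n φ h).coeff 0) = 0 := by
    apply h1
    intro i hi
    rw [map_sub, key, HahnSeries.coeff_sub]
    rcases lt_or_eq_of_le (Int.lt_add_one_iff.1 (by simpa using hi) : i ≤ 0) with h3 | h3
    · rw [h0 i h3, HahnSeries.coeff_single_of_ne (ne_of_lt h3), sub_zero]
    · subst h3
      rw [HahnSeries.coeff_single_same, sub_self]
  exact sub_eq_zero.1 h2

end Pool.Agent.H399R2.OPC
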