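import Pool.Agent.H306R2.RZ.Stubs2

set_option autoImplicit false

/-! Task TR of project RZ: tail range. -/

namespace Pool.Agent.H399R2.RZTR

open Finset Filter Topology MeasureTheory
open Pool.Agent.H306R2.RZ

theorem fin_supp (F : ℝ → ℝ) (hF : TF F) (X : ℝ) (hX : 0 < X) :
    ∃ S : Finset ℕ, ∀ d : ℕ, d ∉ S → F ((d : ℝ) / X) = 0 := by
  obtain ⟨R, hR⟩ := hF.cpt.isCompact.isBounded.subset_closedBall (0 : ℝ)
  refine ⟨Finset.range (⌈R * X⌉₊ + 1), fun d hd => ?_⟩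
  by_contra hne
  have h1 : (d : ℝ) / X ∈ tsupport F := subset_tsupport F hne
  have h2 := hR h1
  rw [Metric.mem_closedBall, Real.dist_eq, sub_zero] at h2
  have h3 : (d : ℝ) / X ≤ R := le_trans (le_abs_self _) h2
  rw [div_le_iff₀ hX] at h3
  have h4 : (d : ℝ) ≤ ⌈R * X⌉₊ := le_trans h3 (Nat.le_ceil _)
  have h5 : d ≤ ⌈R * X⌉₊ := by exact_mod_cast h4
  apply hd
  rw [Finset.mem_range]
  omega

theorem EF_eq (F : ℝ → ℝ) (X : ℝ) (S : Finset ℕ) (hS : ∀ d : ℕ, d ∉ S → F ((d : ℝ) / X) = 0)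
    (f : ℕ → ℝ) : EF F X f = (∑ d ∈ S, if Odd d then F ((d : ℝ) / X) * f d else 0) / X := by
  unfold EF
  rw [tsum_eq_sum (s := S)]
  intro d hd
  rw [hS d hd]
  simp

theorem cnt_eq (F : ℝ → ℝ) (L : ℝ) (S : Finset ℕ)
    (hS : ∀ d : ℕ, d ∉ S → F ((d : ℝ) / Real.exp L) = 0) (A : Set ℕ) :
    cnt F L A = (∑ d ∈ S, A.indicator (fun d => F ((d : ℝ) / Real.exp L)) d) / Real.exp L := by
  unfold cnt
  rw [tsum_eq_sum (s := S)]
  intro d hd
  by_cases h : d ∈ A
  · rw [Set.indicator_of_mem h]; exact hS d hd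
  · rw [Set.indicator_of_notMem h]

/-- abstract summation argument -/
theorem core (F : ℝ → ℝ) (hF : TF F) (hF0 : ∀ x, 0 ≤ F x) (L X0 Y C c0 c1 : ℝ) (hC : 0 < C)
    (hc0 : 0 < c0) (hc1 : 0 < c1) (hXY : X0 ≤ Y) (A : Set ℕ) (hA : ∀ d ∈ A, Odd d)
    (u v : ℕ → ℝ → ℝ)
    (hu : ∀ x, X0 ≤ x → x ≤ Y → EF F (Real.exp L) (fun d => u d x ^ 2) ≤ C * Real.exp (-(c0 * x)))
    (hv : ∀ x, X0 ≤ x → x ≤ Y → EF F (Real.exp L) (fun d => v d x ^ 2) ≤ C * Real.exp (-(c0 * x)))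
    (h : ∀ d ∈ A, F ((d : ℝ) / Real.exp L) ≠ 0 → ∃ x0, X0 ≤ x0 ∧ x0 ≤ Y ∧
      c1 ^ 2 ≤ u d Y ^ 2 + ∫ x in x0..Y, 2 * |u d x| * |v d x|) :
    cnt F L A ≤ (C + 2 * C / c0) / c1 ^ 2 * Real.exp (-(c0 * X0)) := by
  classical
  have hX : 0 < Real.exp L := Real.exp_pos L
  obtain ⟨S, hS⟩ := fin_supp F hF (Real.exp L) hX
  have key : ∀ d : ℕ, ∃ g : ℝ → ℝ, IntegrableOn g (Set.Ioc X0 Y) ∧
      (∀ x, g x ≤ u d x ^ 2 + v d x ^ 2) ∧
      (d ∈ A → F ((d : ℝ) / Real.exp L) ≠ 0 → c1 ^ 2 ≤ u d Y ^ 2 + ∫ x in Set.Ioc X0 Y, g x) := by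
    intro d
    by_cases hd : d ∈ A ∧ F ((d : ℝ) / Real.exp L) ≠ 0
    · obtain ⟨x0, h1, h2, h3⟩ := h d hd.1 hd.2
      by_cases hi : IntegrableOn (fun x => 2 * |u d x| * |v d x|) (Set.Ioc x0 Y)
      · refine ⟨(Set.Ioc x0 Y).indicator (fun x => 2 * |u d x| * |v d x|), ?_, ?_, ?_⟩
        · exact ((integrable_indicator_iff measurableSet_Ioc).2 hi).integrableOn
        · intro x
          by_cases hx : x ∈ Set.Ioc x0 Y
          · rw [Set.indicator_of_mem hx]
            nlinarith [sq_nonneg (|u d x| - |v d x|), sq_abs (u d x), sq_abs (v d x)]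
          · rw [Set.indicator_of_notMem hx]
            positivity
        · intro _ _
          rw [intervalIntegral.integral_of_le h2] at h3
          rw [setIntegral_indicator measurableSet_Ioc]
          have : Set.Ioc X0 Y ∩ Set.Ioc x0 Y = Set.Ioc x0 Y :=
            Set.inter_eq_right.2 (Set.Ioc_subset_Ioc_left h1)
          rw [this]
          exact h3
      · refine ⟨0, integrableOn_zero, ?_, ?_⟩
        · intro x
          simp only [Pi.zero_apply]
          positivity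
        · intro _ _
          rw [intervalIntegral.integral_of_le h2, integral_undef hi] at h3
          simpa using h3
    · refine ⟨0, integrableOn_zero, ?_, ?_⟩
      · intro x
        simp only [Pi.zero_apply]
        positivity
      · intro h1 h2
        exact absurd ⟨h1, h2⟩ hd
  choose g hg1 hg2 hg3 using key
  -- pointwise
  have hpt : ∀ d : ℕ, c1 ^ 2 * A.indicator (fun d => F ((d : ℝ) / Real.exp L)) d ≤
      (if Odd d then F ((d : ℝ) / Real.exp L) * u d Y ^ 2 else 0) +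
      (if Odd d ∧ d ∈ A then F ((d : ℝ) / Real.exp L) * ∫ x in Set.Ioc X0 Y, g d x else 0) := by
    intro d
    by_cases hd : d ∈ A
    · rw [Set.indicator_of_mem hd, if_pos (hA d hd), if_pos ⟨hA d hd, hd⟩]
      by_cases hz : F ((d : ℝ) / Real.exp L) = 0
      · rw [hz]; simp
      · have := hg3 d hd hz
        have h0 := hF0 ((d : ℝ) / Real.exp L)
        nlinarith [mul_le_mul_of_nonneg_left this h0]
    · rw [Set.indicator_of_notMem hd, if_neg (fun h : Odd d ∧ d ∈ A => hd h.2)]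
      by_cases ho : Odd d
      · rw [if_pos ho]
        have h0 := hF0 ((d : ℝ) / Real.exp L)
        have : 0 ≤ F ((d : ℝ) / Real.exp L) * u d Y ^ 2 := mul_nonneg h0 (sq_nonneg _)
        linarith
      · rw [if_neg ho]; simp
  have hsum : c1 ^ 2 * cnt F L A ≤ EF F (Real.exp L) (fun d => u d Y ^ 2) +
      (∑ d ∈ S, if Odd d ∧ d ∈ A then F ((d : ℝ) / Real.exp L) * ∫ x in Set.Ioc X0 Y, g d x
        else 0) / Real.exp L := by
    rw [cnt_eq F L S hS A, EF_eq F (Real.exp L) S hS, ← add_div, ← mul_div_assoc, Finset.mul_sum,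
      ← Finset.sum_add_distrib]
    exact div_le_div_of_nonneg_right (Finset.sum_le_sum fun d _ => hpt d) hX.le
  have hswap : (∑ d ∈ S, if Odd d ∧ d ∈ A then F ((d : ℝ) / Real.exp L) *
      ∫ x in Set.Ioc X0 Y, g d x else 0) =
      ∫ x in Set.Ioc X0 Y, ∑ d ∈ S, (if Odd d ∧ d ∈ A then F ((d : ℝ) / Real.exp L) * g d x
        else 0) := by
    rw [integral_finsetSum]
    · apply Finset.sum_congr rfl
      intro d _
      split_ifs
      · rw [integral_const_mul]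
      · simp
    · intro d _
      by_cases hd : Odd d ∧ d ∈ A
      · simp only [if_pos hd]
        exact (hg1 d).const_mul _
      · simp only [if_neg hd]
        exact integrable_zero _ _ _
  have hint : IntegrableOn (fun x => ∑ d ∈ S, (if Odd d ∧ d ∈ A then
      F ((d : ℝ) / Real.exp L) * g d x else 0)) (Set.Ioc X0 Y) := by
    apply integrable_finsetSum
    intro d _
    by_cases hd : Odd d ∧ d ∈ A
    · simp only [if_pos hd]
      exact (hg1 d).const_mul _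
    · simp only [if_neg hd]
      exact integrable_zero _ _ _
  have hbd : ∀ x ∈ Set.Ioc X0 Y, (∑ d ∈ S, (if Odd d ∧ d ∈ A then
      F ((d : ℝ) / Real.exp L) * g d x else 0)) ≤ Real.exp L * (2 * C * Real.exp (-(c0 * x))) := by
    intro x hx
    have e1 := hu x hx.1.le hx.2
    have e2 := hv x hx.1.le hx.2
    rw [EF_eq F (Real.exp L) S hS, div_le_iff₀ hX] at e1 e2
    have e3 : (∑ d ∈ S, (if Odd d ∧ d ∈ A then F ((d : ℝ) / Real.exp L) * g d x else 0)) ≤
        (∑ d ∈ S, if Odd d then F ((d : ℝ) / Real.exp L) * u d x ^ 2 else 0) +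
        (∑ d ∈ S, if Odd d then F ((d : ℝ) / Real.exp L) * v d x ^ 2 else 0) := by
      rw [← Finset.sum_add_distrib]
      apply Finset.sum_le_sum
      intro d _
      have h0 := hF0 ((d : ℝ) / Real.exp L)
      have h1 := hg2 d x
      by_cases ho : Odd d
      · rw [if_pos ho, if_pos ho]
        by_cases ha : d ∈ A
        · rw [if_pos ⟨ho, ha⟩]
          nlinarith [mul_le_mul_of_nonneg_left h1 h0]
        · rw [if_neg (fun h => ha h.2)]
          positivity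
      · rw [if_neg ho, if_neg ho, if_neg (fun h => ho h.1)]
        simp
    linarith
  have hexp : IntegrableOn (fun x => Real.exp L * (2 * C * Real.exp (-(c0 * x))))
      (Set.Ioc X0 Y) := by
    apply Continuous.integrableOn_Ioc
    fun_prop
  have hmain : (∫ x in Set.Ioc X0 Y, ∑ d ∈ S, (if Odd d ∧ d ∈ A then
      F ((d : ℝ) / Real.exp L) * g d x else 0)) ≤
      ∫ x in Set.Ioc X0 Y, Real.exp L * (2 * C * Real.exp (-(c0 * x))) :=
    setIntegral_mono_on hint hexp measurableSet_Ioc hbd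
  have hval : (∫ x in Set.Ioc X0 Y, Real.exp L * (2 * C * Real.exp (-(c0 * x)))) ≤
      Real.exp L * (2 * C / c0 * Real.exp (-(c0 * X0))) := by
    rw [← intervalIntegral.integral_of_le hXY]
    have hder : ∀ x ∈ Set.uIcc X0 Y, HasDerivAt
        (fun x => -(Real.exp L * (2 * C / c0 * Real.exp (-(c0 * x)))))
        (Real.exp L * (2 * C * Real.exp (-(c0 * x)))) x := by
      intro x _
      have h1 : HasDerivAt (fun x : ℝ => -(c0 * x)) (-c0) x := by
        have h0 := ((hasDerivAt_id x).const_mul c0).neg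
        rw [mul_one] at h0
        exact h0
      have h2 := (((h1.exp).const_mul (2 * C / c0)).const_mul (Real.exp L)).neg
      have h3 : Real.exp L * (2 * C * Real.exp (-(c0 * x))) =
          -(Real.exp L * (2 * C / c0 * (Real.exp (-(c0 * x)) * -c0))) := by
        field_simp
      rw [h3]
      exact h2
    rw [intervalIntegral.integral_eq_sub_of_hasDerivAt hder]
    · have : 0 ≤ Real.exp L * (2 * C / c0 * Real.exp (-(c0 * Y))) := by positivity
      linarith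
    · apply Continuous.intervalIntegrable
      fun_prop
  have hfin : c1 ^ 2 * cnt F L A ≤ (C + 2 * C / c0) * Real.exp (-(c0 * X0)) := by
    have e1 := hu Y hXY le_rfl
    have e2 : Real.exp (-(c0 * Y)) ≤ Real.exp (-(c0 * X0)) := by
      apply Real.exp_le_exp.2
      have := mul_le_mul_of_nonneg_left hXY hc0.le
      linarith
    have e3 : (∑ d ∈ S, if Odd d ∧ d ∈ A then F ((d : ℝ) / Real.exp L) *
        ∫ x in Set.Ioc X0 Y, g d x else 0) / Real.exp L ≤ 2 * C / c0 * Real.exp (-(c0 * X0)) := by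
      rw [div_le_iff₀ hX, hswap]
      linarith
    have e4 : C * Real.exp (-(c0 * Y)) ≤ C * Real.exp (-(c0 * X0)) :=
      mul_le_mul_of_nonneg_left e2 hC.le
    linarith
  have hc2 : 0 < c1 ^ 2 := by positivity
  rw [div_mul_eq_mul_div, le_div_iff₀ hc2]
  linarith

theorem TR (F : ℝ → ℝ) (hF : TF F) (hF0 : ∀ x, 0 ≤ F x) (δ θ : ℝ) (hδ : 0 < δ)
    (hA : Adm (1 / 2 + 3 * δ) θ) :
    ∃ C c0 L0 : ℝ, 0 < C ∧ 0 < c0 ∧ ∀ L : ℝ, L0 ≤ L → ∀ X0 : ℝ, 1 ≤ X0 → X0 ≤ L / 2 →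
      cnt F L (OS ∩ {d | bad2 L X0 d}) ≤ C * Real.exp (-(c0 * X0)) := by
  obtain ⟨W0a, W0b, W0c⟩ := Stubs2.W0
  have hδ' : 0 < min δ (1 / 64) := lt_min hδ (by norm_num)
  have hδ1 : min δ (1 / 64) ≤ 1 / 64 := min_le_right _ _
  have hδ2 : min δ (1 / 64) ≤ δ := min_le_left _ _
  set δ' := min δ (1 / 64) with hδdef
  have hθ := hA.hθ
  have hθ1 := hA.hθ1
  have hA' : Adm (1 / 2 + 3 * δ') θ :=
    { hs := by linarith
      hθ := hθ
      hs1 := by linarith [hA.hs1]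
      hθ1 := hθ1
      hst := by linarith [hA.hst]
      main := by linarith [hA.main] }
  have he : 0 < θ / 100 := by positivity
  obtain ⟨ρ, hρ⟩ := W0a δ' hδ'
  obtain ⟨κ, hκ⟩ := W0b δ' (θ / 100) hδ' he
  obtain ⟨r, hr⟩ := W0c (θ / 4) θ (by linarith)
  obtain ⟨C, c0, L1, hC, hc0, hTR1⟩ :=
    Stubs2.TR1 F hF hF0 δ' (θ / 100) θ hδ' hδ1 he le_rfl hA' ρ r κ hρ hr hκ
  obtain ⟨c1, c2, b, L2, hc1, hb, hC8⟩ := Stubs2.C8 F hF
  refine ⟨(C + 2 * C / c0) / c1 ^ 2, c0, max (max L1 L2) 4, by positivity, hc0, ?_⟩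
  intro L hL X0 hX0 hX0L
  have hL1 : L1 ≤ L := le_trans (le_trans (le_max_left _ _) (le_max_left _ _)) hL
  have hL2 : L2 ≤ L := le_trans (le_trans (le_max_right _ _) (le_max_left _ _)) hL
  have hL4 : 4 ≤ L := le_trans (le_max_right _ _) hL
  apply core F hF hF0 L X0 (L / 2) C c0 c1 hC hc0 hc1 hX0L (OS ∩ {d | bad2 L X0 d})
    (fun d hd => hd.1.1) (Gu L ρ r κ) (Gu1 L ρ r κ)
  · intro x hx1 hx2
    exact (hTR1 L hL1 x (le_trans hX0 hx1) hx2).1
  · intro x hx1 hx2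
    exact (hTR1 L hL1 x (le_trans hX0 hx1) hx2).2
  · rintro d ⟨⟨hodd, hsq⟩, x0, h1, h2, h3⟩ hFd
    refine ⟨x0, h1, h2, ?_⟩
    have k1 := Stubs2.TR2 L hL4 δ' (θ / 100) θ hδ' hδ1 hθ hθ1 ρ r κ hρ hr hκ he d hodd hsq x0
      (le_trans hX0 h1) h2 h3
    have k2 := ((hC8 L hL2 d hFd).2 x0 (by linarith) h2).1
    have k3 : c1 ^ 2 ≤ Kd L d x0 ^ 2 := by
      apply pow_le_pow_left₀ hc1.le k2
    linarith

end Pool.Agent.H399R2.RZTR
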