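import Mathlib

set_option autoImplicit false

namespace Pool.Agent.H399R2

/-- a window of length `M` meets every residue class modulo `M` -/
lemma window (M : ℕ) (hM : 0 < M) (r e : ℕ) (he : M ≤ e) :
    ∃ k, e - M ≤ k ∧ k < e ∧ (k + 1) ≡ r [MOD M] := by
  set d := (e + (M - r % M)) % M with hd
  have hdM : d < M := Nat.mod_lt _ hM
  refine ⟨e - 1 - d, by omega, by omega, ?_⟩
  have h1 : e - 1 - d + 1 = e - d := by omega
  rw [h1]
  have hr : r % M < M := Nat.mod_lt _ hM
  have h2 : (e - d) + d ≡ r + d [MOD M] := by
    have h3 : (e - d) + d = e := by omega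
    rw [h3]
    have h4 : r + d ≡ r + (e + (M - r % M)) [MOD M] := by
      apply Nat.ModEq.add_left
      rw [hd]
      exact Nat.mod_modEq _ _
    have h5 : r + (e + (M - r % M)) ≡ e [MOD M] := by
      have h6 : r + (e + (M - r % M)) = e + M * (r / M) + M := by
        have := Nat.div_add_mod r M
        omega
      rw [h6]
      simp [Nat.ModEq]
    exact (h4.trans h5).symm
  exact Nat.ModEq.add_right_cancel' d h2

end Pool.Agent.H399R2
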